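import Pool.Agent.W788.NW.Asm

/-!
# The cutoff window of the noisy voter model is of order one, from every initial state, on graphs
of subexponential growth (MP_2bac73_pr)
-/

namespace Pool.Agent.Results.MP_2bac73_pr.WindowSubexponentialGrowth

open Pool.Agent.W788.NV Pool.Agent.W788.NW Filter Topology Asymptotics

/-- For all connected graphs with balls of size at most `c0 * exp (r ^ (1 - α))`, all `q ≥ 2`,
`θ ∈ (0, 1)` and all initial states, the difference `tmix ε - tmix (1 - ε)` is bounded by a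
constant depending only on `q, θ, c0, α, ε`. -/
theorem result :
    (∀ (V : Type) [Fintype V] [DecidableEq V] (G : SimpleGraph V) (q : ℕ) (θ : ℝ),
      2 ≤ q → 0 < θ → θ < 1 → G.Connected → 2 ≤ Fintype.card V →
      ∃! μ : (V → Fin q) → ℝ, IsStat G q θ μ) ∧
    (∀ (q : ℕ) (θ c0 α ε : ℝ), 2 ≤ q → 0 < θ → θ < 1 → 0 < c0 → 0 < α → α < 1 → 0 < ε → ε < 1 →
      ∃ C : ℝ, ∀ (V : Type) [Fintype V] [DecidableEq V] (G : SimpleGraph V) (x0 : V → Fin q)
        (μ : (V → Fin q) → ℝ), G.Connected →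
        (∀ (v : V) (r : ℕ), 1 ≤ r → (({w : V | G.dist v w ≤ r} : Set V).ncard : ℝ) ≤
          c0 * Real.exp ((r : ℝ) ^ (1 - α))) → 3 ≤ Fintype.card V → IsStat G q θ μ →
        |tmix G q θ x0 μ ε - tmix G q θ x0 μ (1 - ε)| ≤ C) ∧
    (∀ (q : ℕ) (θ c0 α : ℝ) (V : ℕ → Type) [∀ n, Fintype (V n)] [∀ n, DecidableEq (V n)]
      (G : ∀ n, SimpleGraph (V n)) (x0 : ∀ n, V n → Fin q) (μ : ∀ n, (V n → Fin q) → ℝ),
      2 ≤ q → 0 < θ → θ < 1 → 0 < c0 → 0 < α → α < 1 → (∀ n, Fintype.card (V n) = n) →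
      (∀ n, 2 ≤ n → (G n).Connected) →
      (∀ (n : ℕ) (v : V n) (r : ℝ), 1 ≤ r →
        (({w : V n | ((G n).dist v w : ℝ) ≤ r} : Set (V n)).ncard : ℝ) ≤
          c0 * Real.exp (r ^ (1 - α))) →
      (∀ n, 2 ≤ n → IsStat (G n) q θ (μ n)) → ∀ ε : ℝ, 0 < ε → ε < 1 →
      (fun n => tmix (G n) q θ (x0 n) (μ n) ε - tmix (G n) q θ (x0 n) (μ n) (1 - ε))
        =O[atTop] (fun _ => (1 : ℝ))) := by
  refine ⟨?_, ?_, ?_⟩
  · intro V _ _ G q θ hq h0 h1 hG h2
    exact p_sta V G q θ (by omega) h0 h1.le (dg_pos G hG h2)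
  · intro q θ c0 α ε hq h0 h1 hc ha0 ha1 hε0 hε1
    exact window p_sub p_fin3 q θ c0 α ε hq h0 h1 hc ha0 ha1 hε0 hε1
  · intro q θ c0 α V _ _ G x0 μ hq h0 h1 hc ha0 ha1 hcard hG hball hμ ε hε0 hε1
    obtain ⟨C, hC⟩ := window p_sub p_fin3 q θ c0 α ε hq h0 h1 hc ha0 ha1 hε0 hε1
    refine IsBigO.of_bound C ?_
    filter_upwards [eventually_ge_atTop 3] with n hn
    have := hC (V n) (G n) (x0 n) (μ n) (hG n (by omega)) (fun v r hr => by
      have h := hball n v (r : ℝ) (by exact_mod_cast hr)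
      simpa using h) (by rw [hcard]; exact hn) (hμ n (by omega))
    simpa using this

end Pool.Agent.Results.MP_2bac73_pr.WindowSubexponentialGrowth
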